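import Pool.Agent.H34W.Main

/-!
# Welsh's conjecture on the most numerous rank, for a set of `n` of lower logarithmic density `1/2`
-/

set_option autoImplicit false

namespace Pool.Agent.Results.MP_8e2a6e_co.LogDensity

/-- The number of isomorphism classes of matroids of rank `r` on the ground set `Fin n`
(exactly as in the statement of the problem). -/
noncomputable def f (r n : ℕ) : ℕ :=
  Nat.card (Quot (fun M₁ M₂ : {M : Matroid (Fin n) // M.E = Set.univ ∧ M.eRank = (r : ℕ∞)} =>
    ∃ σ : Equiv.Perm (Fin n), ∀ I : Set (Fin n), M₁.val.Indep I ↔ M₂.val.Indep (σ '' I)))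

/-- `Good K n`: every rank `r` with `|n - 2 r| ≥ 2 K + 2` has strictly fewer isomorphism classes
than the rank `⌊n/2⌋`; and for `K = 0`, moreover, Welsh's inequality holds for `n` and all ranks. -/
def Good (K n : ℕ) : Prop :=
  (∀ r : ℕ, 2 * K + 2 ≤ |(n : ℤ) - 2 * r| → f r n < f (n / 2) n) ∧
    (K = 0 → ∀ r : ℕ, f r n ≤ f (n / 2) n)

open Classical in
/-- For every `K`, the set of `n` with `Good K n` has lower logarithmic density at least
`1 - (2 K + 1) / (2 (K + 1)²)`. For `K = 0` this is the lower bound `1/2` for the set of those `n`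
for which Welsh's conjecture `f_{⌊n/2⌋}(n) ≥ f_r(n)` (all `r`) is true. -/
theorem result (K : ℕ) (ε : ℝ) (hε : 0 < ε) : ∃ N₀ : ℕ, ∀ N : ℕ, N₀ ≤ N →
    (1 - (2 * (K : ℝ) + 1) / (2 * ((K : ℝ) + 1) ^ 2) - ε) * Real.log N ≤
      ∑ n ∈ (Finset.Icc 1 N).filter (fun n => Good K n), 1 / (n : ℝ) := by
  obtain ⟨N₀, hN₀⟩ := H34W.main K ε hε
  refine ⟨N₀, fun N hN => (hN₀ N hN).trans ?_⟩
  refine le_trans (Finset.sum_le_sum_of_subset_of_nonneg
    (t := (Finset.Icc 1 N).filter (fun n => Good K n)) ?_ (fun _ _ _ => by positivity))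
    (le_of_eq (Finset.sum_congr rfl fun n _ => (one_div _).symm))
  intro n hn
  rw [Finset.mem_filter] at hn ⊢
  refine ⟨hn.1, ?_, ?_⟩
  · intro r hr
    refine (hn.2 r).1 ?_
    rcases le_abs.1 hr with h | h
    · left; omega
    · right; omega
  · intro hK r
    exact (hn.2 r).2 hK

end Pool.Agent.Results.MP_8e2a6e_co.LogDensity
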